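import Pool.Agent.Helper6.CS.Goals1

/-!
# Packet CS-L2 (MP_81e84b_lc): one word for many tails
-/

namespace Pool.Agent.Helper12.CS

open Pool.Agent.Helper6.CS

set_option synthInstance.maxSize 1000000000 in
theorem ip_L2 (M : Type) [World M] (b : M) (E : M → Wd M → Prop)
    [IP M fun p : M × Wd M => E p.1 p.2] : IP M (fun N : M => ∀ p : M, ∃ q : M, ∀ e : M,
    (∀ k, k < N → Over b (dec (ev e k))) → ∃ g : Wd M, Over b g ∧ g.len ≤ q ∧
      ∀ k, k < N → ∀ t : Wd M, Over b t → t.len ≤ p → ¬ E k (t ++ g ++ dec (ev e k))) :=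
  inferInstance

theorem t_L2 : G_L2 := by
  intro M _ b E hE hPS
  have := hE
  refine ind (ip_L2 M b E) ?_ ?_
  · intro p
    exact ⟨0, fun e _ => ⟨Wd.nil M, Over.nil b, by simp,
      fun k hk => absurd hk (not_lt.2 (World.zero_le' k))⟩⟩
  · intro N ih p
    obtain ⟨q₁, h₁⟩ := ih p
    have h2 := hPS N
    unfold PS at h2
    push Not at h2
    obtain ⟨q₂, h₂⟩ := h2 (p + q₁)
    refine ⟨q₁ + q₂, fun e he => ?_⟩
    obtain ⟨g₂, hg₂, hl₂, hn₂⟩ := h₂ (dec (ev e N)) (he N ((World.lt_succ _ _).2 le_rfl))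
    obtain ⟨e', he'⟩ := ev_exists (fun k => (Cod.cd (g₂ ++ dec (ev e k)) : M)) N
    have hdec : ∀ k, k < N → dec (ev e' k) = g₂ ++ dec (ev e k) := fun k hk => by
      rw [he' k hk, dec_cd]
    obtain ⟨g₁, hg₁, hl₁, hn₁⟩ := h₁ e' (fun k hk => by
      rw [hdec k hk, Over.append_iff]
      exact ⟨hg₂, he k (hk.trans ((World.lt_succ _ _).2 le_rfl))⟩)
    refine ⟨g₁ ++ g₂, Over.append_iff.2 ⟨hg₁, hg₂⟩,
      by rw [Wd.len_append]; exact add_le_add hl₁ hl₂, ?_⟩
    intro k hk t ht htp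
    rw [World.lt_succ] at hk
    rcases hk.lt_or_eq with hk' | rfl
    · have h3 := hn₁ k hk' t ht htp
      rw [hdec k hk'] at h3
      simpa only [Wd.append_assoc] using h3
    · have h3 := hn₂ (t ++ g₁) (Over.append_iff.2 ⟨ht, hg₁⟩)
        (by rw [Wd.len_append]; exact add_le_add htp hl₁)
      simpa only [Wd.append_assoc] using h3

end Pool.Agent.Helper12.CS
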